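import Mathlib

/-! # A backtracking check

`chk` explores all assignments `f` of elements of `dom` to `0, 1, …, n - 1` satisfying a pairwise
constraint `R j i (f j) (f i)` for `j < i`, and tests the final predicate `Q` on each. -/

set_option autoImplicit false

namespace Pool.Agent.W118.Back

/-- Is the new image `a` of `i` compatible with the images `l` of `l.length - 1, …, 0`? -/
def okAll (R : ℕ → ℕ → ℕ → ℕ → Bool) (i a : ℕ) : List ℕ → Bool
  | [] => true
  | b :: l => R l.length i b a && okAll R i a l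

/-- The backtracking search. -/
def chk (dom : List ℕ) (R : ℕ → ℕ → ℕ → ℕ → Bool) (Q : List ℕ → Bool) : ℕ → List ℕ → Bool
  | 0, l => Q l
  | k + 1, l => dom.all fun a => !(okAll R l.length a l) || chk dom R Q k (a :: l)

/-- The list `f (n - 1), …, f 0`. -/
def imgs (f : ℕ → ℕ) : ℕ → List ℕ
  | 0 => []
  | n + 1 => f n :: imgs f n

theorem length_imgs (f : ℕ → ℕ) (n : ℕ) : (imgs f n).length = n := by
  induction n with
  | zero => rfl
  | succ n ih => simp [imgs, ih]

theorem okAll_imgs (R : ℕ → ℕ → ℕ → ℕ → Bool) (f : ℕ → ℕ) (i m : ℕ)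
    (h : ∀ j < m, R j i (f j) (f i) = true) : okAll R i (f i) (imgs f m) = true := by
  induction m with
  | zero => rfl
  | succ m ih =>
    simp only [imgs, okAll, length_imgs, Bool.and_eq_true]
    exact ⟨h m (Nat.lt_succ_self m), ih fun j hj => h j (Nat.lt_succ_of_lt hj)⟩

theorem chk_sound_aux (dom : List ℕ) (R : ℕ → ℕ → ℕ → ℕ → Bool) (Q : List ℕ → Bool) (f : ℕ → ℕ)
    (n : ℕ) (hdom : ∀ i < n, f i ∈ dom) (hR : ∀ j i, j < i → i < n → R j i (f j) (f i) = true)
    (k m : ℕ) (hkm : m + k = n) (h : chk dom R Q k (imgs f m) = true) : Q (imgs f n) = true := by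
  induction k generalizing m with
  | zero =>
    rw [Nat.add_zero] at hkm
    subst hkm
    exact h
  | succ k ih =>
    refine ih (m + 1) (by omega) ?_
    simp only [chk, List.all_eq_true] at h
    have h1 := h (f m) (hdom m (by omega))
    rw [length_imgs, okAll_imgs R f m m (fun j hj => hR j m hj (by omega))] at h1
    simpa [imgs] using h1

/-- Soundness of the search. -/
theorem chk_sound (dom : List ℕ) (R : ℕ → ℕ → ℕ → ℕ → Bool) (Q : List ℕ → Bool) (n : ℕ)
    (h : chk dom R Q n [] = true) (f : ℕ → ℕ) (hdom : ∀ i < n, f i ∈ dom)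
    (hR : ∀ j i, j < i → i < n → R j i (f j) (f i) = true) : Q (imgs f n) = true :=
  chk_sound_aux dom R Q f n hdom hR n 0 (by omega) h

/-- Adjacency from the list of rows, each row a bit mask. -/
def adj (rows : List ℕ) (i j : ℕ) : Bool := (rows.getD i 0).testBit j

end Pool.Agent.W118.Back
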